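import Pool.Agent.helper97.GD.Spec

set_option autoImplicit false

open Filter FirstOrder FirstOrder.Language

namespace Pool.Agent.GD

open Pool.Agent.UnivT

theorem GLE_len1 (x : ℤ) : |x| < 2 ^ (Nat.digits 2 x.natAbs).length := by
  have h := Nat.lt_base_pow_length_digits (b := 2) (m := x.natAbs) (by norm_num)
  rw [← Int.natCast_natAbs]
  exact_mod_cast h

theorem GLE_len2 (x : ℤ) (hx : x ≠ 0) : (2 : ℤ) ^ (Nat.digits 2 x.natAbs).length ≤ 2 * |x| := by
  have h := Nat.base_pow_length_digits_le 2 x.natAbs (by norm_num) (by simpa using hx)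
  rw [← Int.natCast_natAbs]
  exact_mod_cast h

theorem GLE_core (D : ℕ) (hD : 0 < D) (f a R : ℤ) (X : ℕ) (ha : a ≠ 0) (hR : 2 * |R| ≤ 2 ^ X)
    (h : (D : ℤ) * f = a * 2 ^ X + R) : |len f - X| ≤ ((D + 3 : ℕ) : ℤ) * (|len a| + 1) := by
  have hX : (0 : ℤ) < 2 ^ X := by positivity
  have ha1 : 1 ≤ |a| := Int.one_le_abs ha
  have hD1 : (1 : ℤ) ≤ D := by exact_mod_cast hD
  have hDf : (D : ℤ) * |f| = |a * 2 ^ X + R| := by
    rw [← h, abs_mul, abs_of_nonneg (by linarith : (0 : ℤ) ≤ D)]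
  have haX : |a * 2 ^ X| = |a| * 2 ^ X := by rw [abs_mul, abs_of_pos hX]
  have hlo : |a| * 2 ^ X - |R| ≤ (D : ℤ) * |f| := by
    rw [hDf, ← haX]
    have := abs_sub_abs_le_abs_sub (a * 2 ^ X) (-R)
    rw [abs_neg, sub_neg_eq_add] at this
    exact this
  have hhi : (D : ℤ) * |f| ≤ |a| * 2 ^ X + |R| := by
    rw [hDf, ← haX]
    exact abs_add_le _ _
  have h1 : (2 : ℤ) ^ X ≤ 2 * ((D : ℤ) * |f|) := by nlinarith
  have hf : f ≠ 0 := by
    intro h0
    rw [h0, abs_zero] at h1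
    linarith
  have h2 : (D : ℤ) * |f| ≤ 2 * (|a| * 2 ^ X) := by nlinarith
  obtain ⟨L, hL⟩ : ∃ L, L = (Nat.digits 2 f.natAbs).length := ⟨_, rfl⟩
  obtain ⟨K, hK⟩ : ∃ K, K = (Nat.digits 2 a.natAbs).length := ⟨_, rfl⟩
  have hlf : len f = (L : ℤ) := by rw [hL]; rfl
  have hla : len a = (K : ℤ) := by rw [hK]; rfl
  have f1 := GLE_len1 f
  have f2 := GLE_len2 f hf
  have a1 := GLE_len1 a
  rw [← hL] at f1 f2
  rw [← hK] at a1
  have hD2 : (D : ℤ) < 2 ^ D := by exact_mod_cast Nat.lt_two_pow_self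
  -- upper bound for X
  have u1 : X < 1 + D + L := by
    have : (2 : ℤ) ^ X < 2 ^ (1 + D + L) := by
      rw [pow_add, pow_add, pow_one]
      have hL0 : (0 : ℤ) < 2 ^ L := by positivity
      have e1 : (D : ℤ) * |f| < 2 ^ D * 2 ^ L := by
        have e2 : (D : ℤ) * |f| ≤ 2 ^ D * |f| := mul_le_mul_of_nonneg_right hD2.le (abs_nonneg f)
        have e3 : (2 : ℤ) ^ D * |f| < 2 ^ D * 2 ^ L := mul_lt_mul_of_pos_left f1 (by positivity)
        linarith
      linarith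
    exact (pow_lt_pow_iff_right₀ (by norm_num : (1 : ℤ) < 2)).1 this
  have u2 : L < 2 + K + X := by
    have : (2 : ℤ) ^ L < 2 ^ (2 + K + X) := by
      rw [pow_add, pow_add]
      have e1 : |f| ≤ (D : ℤ) * |f| := le_mul_of_one_le_left (abs_nonneg f) hD1
      have e2 : |a| * 2 ^ X < 2 ^ K * 2 ^ X := mul_lt_mul_of_pos_right a1 hX
      have e3 : (2 : ℤ) ^ 2 = 4 := by norm_num
      rw [e3]
      linarith
    exact (pow_lt_pow_iff_right₀ (by norm_num : (1 : ℤ) < 2)).1 this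
  rw [hlf, hla, abs_le]
  have hK0 : |(K : ℤ)| = K := abs_of_nonneg (by positivity)
  rw [hK0]
  push_cast
  have v1 : (X : ℤ) < 1 + D + L := by exact_mod_cast u1
  have v2 : (L : ℤ) < 2 + K + X := by exact_mod_cast u2
  have hK1 : (0 : ℤ) ≤ K := by positivity
  have hDK : (0 : ℤ) ≤ D * K := by positivity
  constructor <;> nlinarith

theorem GLE_sum (hGSM : GSM_stmt) (hGNG : GNG_stmt) (U : Ultrafilter ℕ) (N : ℕ → ℕ)
    (hN : Tendsto N (U : Filter ℕ) atTop) (e : ℕ → ℤ) (m : List ((ℕ → ℤ) × (ℕ → ℤ)))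
    (hm : ∀ y ∈ m, Sm U N y.1 ∧ Fr U N y.2 ∧ Fr U N fun k => e k - y.2 k) :
    ∀ C : ℕ, ∀ᶠ k in (U : Filter ℕ), (C : ℤ) * |sv m k| ≤ 2 ^ (e k).toNat := by
  obtain ⟨-, -, -, -, -, g6⟩ := hGSM U N hN
  obtain ⟨n1, -, -, -, -, -, n7, -⟩ := hGNG U N hN
  induction m with
  | nil =>
    intro C
    refine Eventually.of_forall fun k => ?_
    rw [sv_nil, abs_zero, mul_zero]
    positivity
  | cons y m ih =>
    intro C
    obtain ⟨hy1, hy2, hy3⟩ := hm y (List.mem_cons_self ..)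
    have h1 := ih (fun z hz => hm z (List.mem_cons_of_mem _ hz)) (2 * C)
    have h2 := g6 y.1 (fun k => e k - y.2 k) (2 * C) hy1 hy3
    have h3 := n7 y.2 (fun _ => 0) hy2 (n1 0)
    have h4 := n7 (fun k => e k - y.2 k) (fun _ => 0) hy3 (n1 0)
    filter_upwards [h1, h2, h3, h4] with k k1 k2 k3 k4
    rw [abs_zero] at k3 k4
    rw [sv_cons]
    have hY : (0 : ℤ) < 2 ^ (y.2 k).toNat := by positivity
    have e1 : (2 : ℤ) ^ (e k - y.2 k).toNat * 2 ^ (y.2 k).toNat = 2 ^ (e k).toNat := by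
      rw [← pow_add]
      congr 1
      omega
    have e2 : |y.1 k * 2 ^ (y.2 k).toNat + sv m k| ≤ |y.1 k| * 2 ^ (y.2 k).toNat + |sv m k| := by
      refine (abs_add_le _ _).trans ?_
      rw [abs_mul, abs_of_pos hY]
    have e3 : ((2 * C : ℕ) : ℤ) * |y.1 k| * 2 ^ (y.2 k).toNat ≤ 2 ^ (e k).toNat := by
      rw [← e1]
      exact mul_le_mul_of_nonneg_right k2.le hY.le
    push_cast at e3 k1
    have hC : (0 : ℤ) ≤ C := by positivity
    have e4 := mul_le_mul_of_nonneg_left e2 hC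
    nlinarith

theorem GLE (hGSM : GSM_stmt) (hGNG : GNG_stmt) (hGLV : GLV_stmt) (hGNF : GNF_stmt) : GLE_stmt := by
  intro U N hN n f hf
  obtain ⟨g1, g2, g3, g4, g5, g6⟩ := hGSM U N hN
  obtain ⟨n1, n2, n3, n4, n5, n6, n7, n8⟩ := hGNG U N hN
  obtain ⟨l1, l2, l3, l4, -, -, -⟩ := hGLV U N hN n
  obtain ⟨D, l, hD, hl, hDf⟩ := hf
  have hSt : St U N n D (fun _ => 0) l f := by
    refine ⟨hD, g1 0, hl, ?_⟩
    filter_upwards [hDf] with k hk
    rw [hk, zero_add]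
  obtain ⟨c', l', ⟨-, hc', hl', hDf'⟩, hNF⟩ := hGNF U N hN n D _ l f hSt
  cases l' with
  | nil =>
    have hfs : Sm U N f := by
      refine g3 c' f 1 hc' ?_
      filter_upwards [hDf'] with k hk
      rw [sv_nil, add_zero] at hk
      have hD1 : (1 : ℤ) ≤ D := by exact_mod_cast hD
      have h1 : |f k| ≤ (D : ℤ) * |f k| := le_mul_of_one_le_left (abs_nonneg _) hD1
      have h2 : (D : ℤ) * |f k| = |c' k| := by
        rw [← hk, abs_mul, abs_of_nonneg (by linarith : (0 : ℤ) ≤ D)]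
      push_cast
      linarith
    exact l2 _ (g4 _ (g5 f hfs)).1
  | cons x m =>
    obtain ⟨hP, hE⟩ := hNF
    rw [List.pairwise_cons] at hP
    obtain ⟨hP1, -⟩ := hP
    obtain ⟨hx1, hx2⟩ := hE x (List.mem_cons_self ..)
    obtain ⟨hx3, hx4⟩ := hl' x (List.mem_cons_self ..)
    have hsum := GLE_sum hGSM hGNG U N hN x.2 m (fun y hy =>
      ⟨(hl' y (List.mem_cons_of_mem _ hy)).1, (hE y (List.mem_cons_of_mem _ hy)).1, hP1 y hy⟩) 4
    have hc := g6 c' x.2 4 hc' hx1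
    have hx0 := n7 x.2 (fun _ => 0) hx1 (n1 0)
    have hkey : ∀ᶠ k in (U : Filter ℕ), |len (f k) - x.2 k| ≤ ((D + 3 : ℕ) : ℤ) * (|len (x.1 k)| + 1) := by
      filter_upwards [hDf', hx2, hsum, hc, hx0] with k k1 k2 k3 k4 k5
      rw [abs_zero] at k5
      have h1 := GLE_core D hD (f k) (x.1 k) (c' k + sv m k) (x.2 k).toNat k2 (by
        have := abs_add_le (c' k) (sv m k)
        push_cast at k3 k4
        linarith) (by
        rw [k1, sv_cons]
        ring)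
      rwa [Int.toNat_of_nonneg k5.le] at h1
    have hng : Ng U N (fun k => len (f k) - x.2 k) :=
      n3 _ _ (D + 3) (g5 x.1 hx3) hkey
    have h1 : Lv U N n (fun k => len (f k) - x.2 k) := l2 _ (g4 _ hng).1
    have h2 := (l4 _ _ h1 hx4).1
    refine l1 _ _ h2 (Eventually.of_forall fun k => ?_)
    show len (f k) - x.2 k + x.2 k = len (f k)
    ring

end Pool.Agent.GD
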